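import Pool.Agent.Helper28.SP.St

/-!
# MP_e188f1_nt, almost all pairs of units: definitions

Integer model of `Pool.Agent.Helper56.SW` with `a = 1`, `b = l` (`l ≡ - a₁ a₂`): the words are
`U(h₁) L(l k₁) U(h₂) L(l k₂) ⋯ U(h_r) L(l k_r)`.
-/

set_option autoImplicit false

namespace Pool.Agent.Helper24.AL

open Finset Matrix
open Pool.Agent.Helper56.SW (τ Γ I bx E Rel N Nq)

noncomputable section

/-- number of lists of `r` pairs whose word is the identity modulo `c` -/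
def N1 (c : ℕ) (a b : ℤ) (r A B : ℕ) : ℕ := by
  classical exact ((bx (I A) (I B) r).filter fun l => Rel c a b 1 l).card

/-- the sum of the three entries -/
def sg (t : Fin 3 → ℤ) : ℤ := t 0 + t 1 + t 2

/-- the box `|t i| ≤ A`, `|b i| ≤ B` -/
def Bx (A B : ℕ) : Finset ((Fin 3 → ℤ) × (Fin 3 → ℤ)) :=
  Fintype.piFinset (fun _ => I A) ×ˢ Fintype.piFinset (fun _ => I B)

/-- the equations for words of six letters with parameter `l` -/
def Eqs (c : ℕ) (l : ℤ) (t b : Fin 3 → ℤ) : Prop :=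
  (∀ i j, (c : ℤ) ∣ t i * b j - t j * b i) ∧
  (∀ i j k, i ≠ j → j ≠ k → i ≠ k → (c : ℤ) ∣ sg t + l * (t i * t j * b k)) ∧
  (∀ i j k, i ≠ j → j ≠ k → i ≠ k → (c : ℤ) ∣ sg b + l * (t k * b i * b j))

/-- number of solutions in the box for fixed `l` -/
def Q6 (c : ℕ) (l : ℤ) (A B : ℕ) : ℕ := by
  classical exact ((Bx A B).filter fun p => Eqs c l p.1 p.2).card

/-- the units modulo `c` -/
def Us (c : ℕ) : Finset ℕ := (range c).filter fun l => Nat.Coprime l c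

/-- number of units `l` modulo `c` for fixed `(t, b)` -/
def Lam (c : ℕ) (t b : Fin 3 → ℤ) : ℕ := by
  classical exact ((Us c).filter fun l => Eqs c l t b).card

/-- number of solutions `(l, t, b)` with `P t b` -/
def WT (c A B : ℕ) (P : (Fin 3 → ℤ) → (Fin 3 → ℤ) → Prop) : ℕ := by
  classical exact ∑ p ∈ (Bx A B).filter (fun p => P p.1 p.2), Lam c p.1 p.2

/-- no coordinate is zero -/
def Nz (t b : Fin 3 → ℤ) : Prop := ∀ i, t i ≠ 0 ∧ b i ≠ 0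

/-- the three vectors `(t i, b i)` are collinear over the integers -/
def Col (t b : Fin 3 → ℤ) : Prop := ∀ i j, t i * b j = t j * b i

/-- pairs of non-collinear vectors `(t₁, b₁)`, `(t₂, b₂)` without zero coordinates, congruent products,
both divisible by `F` -/
def PR (c A1 B1 A2 B2 F : ℕ) : Finset ((ℤ × ℤ) × (ℤ × ℤ)) :=
  ((I A1 ×ˢ I B1) ×ˢ (I A2 ×ˢ I B2)).filter fun p =>
    p.1.1 ≠ 0 ∧ p.1.2 ≠ 0 ∧ p.2.1 ≠ 0 ∧ p.2.2 ≠ 0 ∧
    (c : ℤ) ∣ p.1.1 * p.2.2 - p.2.1 * p.1.2 ∧ p.1.1 * p.2.2 ≠ p.2.1 * p.1.2 ∧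
    (F : ℤ) ∣ p.1.1 * p.2.2 ∧ (F : ℤ) ∣ p.2.1 * p.1.2

/-- the largest `m` for which `m w` lies in the box -/
def mx (A B : ℕ) (w : ℤ × ℤ) : ℕ := min (A / w.1.natAbs) (B / w.2.natAbs)

/-- vectors of the box without zero coordinates -/
def Bz (A B : ℕ) : Finset (ℤ × ℤ) := (I A ×ˢ I B).filter fun w => w.1 ≠ 0 ∧ w.2 ≠ 0

/-- the parameter `l` satisfies the bound of Q1 for six letters at all levels `e ∣ c`, `c ≤ e²` -/
def Gd (C ε : ℝ) (c : ℕ) (l : ℤ) : Prop :=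
  ∀ e ∈ c.divisors, c ≤ e ^ 2 → ∀ A B : ℕ, 1 ≤ A → A ≤ B → B ≤ e →
    (N e 1 l 3 A B : ℝ) ≤ C * (e : ℝ) ^ ε * ((B : ℝ) ^ 2 + ((A : ℝ) * B) ^ 3 / (e : ℝ) ^ 3)

/-- the bad parameters at level `e` -/
def Bad (C ε : ℝ) (e : ℕ) : Finset ℕ := by
  classical exact (Us e).filter fun l => ∃ A B : ℕ, 1 ≤ A ∧ A ≤ B ∧ B ≤ e ∧
    C * (e : ℝ) ^ ε * ((B : ℝ) ^ 2 + ((A : ℝ) * B) ^ 3 / (e : ℝ) ^ 3) < (N e 1 l 3 A B : ℝ)

end

end Pool.Agent.Helper24.AL
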