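import Pool.Agent.Helper24.AL.St
import Pool.Agent.Helper12.AL.M_TH
import Pool.Agent.Helper15.AL.M_POS
import Pool.Agent.Helper2.AL.M_O
import Pool.Agent.Helper2.AL.M_Z0
import Pool.Agent.Helper28.AL.M_LAM6
import Pool.Agent.Helper36.AL.M_AVG
import Pool.Agent.Helper4.AL.M_G2
import Pool.Agent.Helper42.AL.M_EQ
import Pool.Agent.Helper42.AL.M_TR
import Pool.Agent.Helper47.AL.M_S6
import Pool.Agent.Helper6.AL.M_CNT
import Pool.Agent.Helper6.AL.M_G1
import Pool.Agent.Helper60.AL.M_Z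
import Pool.Agent.Helper67.AL.M_G
import Pool.Agent.Helper76.AL.M_C
import Pool.Agent.Helper77.AL.M_POSW
import Pool.Agent.Helper78.AL.M_PAIR
import Pool.Agent.Helper79.AL.M_INEQ
import Pool.Agent.Helper8.AL.M_BAD
import Pool.Agent.Helper82.AL.M_B
import Pool.Agent.Helper82.AL.M_T
import Pool.Agent.Helper84.AL.M_SPLIT
import Pool.Agent.Helper84.AL.M_WPN1
import Pool.Agent.Helper9.AL.M_MX
import Pool.Agent.Helper90.AL.M_LEV
import Pool.Agent.Helper91.AL.M_END
import Pool.Agent.Helper94.AL.M_FIN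
import Pool.Agent.Helper28.SP.Final

/-!
# MP_e188f1_nt, almost all pairs of units: all modules together

Authors of the modules: helper77 (POSW), helper84 (WPN1, SPLIT), helper15 (POS), helper42 (EQ, TR),
helper28 (LAM6), helper78 (PAIR), helper9 (MX), helper2 (Z0, O), helper6 (G1, CNT), helper76 (C),
helper60 (Z), helper82 (B, T), helper4 (G2), helper67 (G), helper79 (INEQ), helper47 (S6), helper36 (AVG),
helper8 (BAD), helper90 (LEV), helper12 (TH), helper94 (FIN), helper91 (END).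
-/

set_option autoImplicit false

namespace Pool.Agent.Helper24.AL

open Pool.Agent.Helper28.SP (StLAM StSURJ StSYM StNPW StWPN StFOLD StLEVEL StKER StGEN StDIM StTJ)

theorem fin_END : StEND := by
  have hS : StSURJ := Pool.Agent.Helper28.SP.SURJ.thm
  have hK : StKER := Pool.Agent.Helper28.SP.KER.thm hS
  have hG : StGEN := Pool.Agent.Helper28.SP.GEN.thm hK hS
  have hP := Pool.Agent.Helper28.SP.PROD.thm hK hS
  have hL : StLAM := Pool.Agent.Helper28.SP.LAM.thm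
  have hD : StDIM := Pool.Agent.Helper28.SP.DIM.thm (Pool.Agent.Helper28.SP.CHAR.thm hG hK hS)
  have hTJ : StTJ := Pool.Agent.Helper28.SP.TJ.thm Pool.Agent.Helper28.SP.LA.thm
    Pool.Agent.Helper28.SP.EIG.thm hL hD (Pool.Agent.Helper28.SP.TR.thm hL hK hS)
    (Pool.Agent.Helper28.SP.Q.thm hL hK hP hS)
  have hLEVEL : StLEVEL := Pool.Agent.Helper28.SP.LEVEL.thm hTJ Pool.Agent.Helper28.SP.CARD.thm
  have hSYM : StSYM := Pool.Agent.Helper28.SP.SYM.thm
  have hNPW : StNPW := Pool.Agent.Helper28.SP.NPW.thm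
  have hWPN : StWPN := Pool.Agent.Helper28.SP.NPW.thm'
  have hFOLD : StFOLD := Pool.Agent.Helper28.SP.FOLD.thm
  have hPAIR : StPAIR := Pool.Agent.Helper78.AL.hPAIR
  have hLAM6 : StLAM6 := Pool.Agent.Helper28.AL.hLAM6
  have hPOS : StPOS := Pool.Agent.Helper15.AL.hPOS (Pool.Agent.Helper77.AL.hPOSW hL)
    Pool.Agent.Helper84.AL.hWPN1 hNPW hSYM hS
  have hO : StO := Pool.Agent.Helper2.AL.hO Pool.Agent.Helper2.AL.hZ0
  have hC : StC := Pool.Agent.Helper76.AL.hC Pool.Agent.Helper9.AL.hMX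
  have hZ : StZ := Pool.Agent.Helper60.AL.hZ hPAIR hLAM6
  have hB : StB := Pool.Agent.Helper82.AL.hB hPAIR hLAM6
  have hT : StT := Pool.Agent.Helper82.AL.hT hB
  have hGG : StG := Pool.Agent.Helper67.AL.hG Pool.Agent.Helper6.AL.hG1
    (Pool.Agent.Helper4.AL.hG2 hPAIR) hLAM6
  have hS6 : StS6 := Pool.Agent.Helper47.AL.hS6 hO hC hZ hB hT hGG Pool.Agent.Helper79.AL.hINEQ
    Pool.Agent.Helper84.AL.hSPLIT
  have hAVG : StAVG := Pool.Agent.Helper36.AL.hAVG hPOS Pool.Agent.Helper42.AL.hEQ hS6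
  have hTH : StTH := Pool.Agent.Helper12.AL.hTH (Pool.Agent.Helper90.AL.hLEV hWPN hFOLD) hLEVEL hSYM
    hNPW hS
  exact Pool.Agent.Helper91.AL.hEND (Pool.Agent.Helper94.AL.hFIN (Pool.Agent.Helper8.AL.hBAD hAVG)
    Pool.Agent.Helper6.AL.hCNT hTH Pool.Agent.Helper42.AL.hTR)

end Pool.Agent.Helper24.AL
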