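import Pool.Agent.Helper24.AL.Defs

/-!
# MP_e188f1_nt, almost all pairs of units: statements of the modules, with proofs in the docstrings

A module proves `theorem thm (h1 : StA) ... : StX` (the allowed hypotheses are listed at the end of each
docstring). Proved facts of `Pool.Agent.Helper56.SW.*` (`Basic`, `stAP`, `stMul`, `stSqrt`, `stFac`,
`fn_div`, `fn_fin`, `M_Tr_rel_iff`, `M_Deg_rel_iff`) and of `Pool.Agent.Helper28.SP.M_X` (single modules)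
may be imported.

Overview. `λ = l` is a unit modulo `c`. The word `U(h₁)L(lk₁)U(h₂)L(lk₂)U(h₃)L(lk₃)` is the identity only
if, with `t = (h₁, h₂, h₃)`, `b = (k₂, k₃, k₁)`, the system `Eqs c l t b` holds. For fixed `(t, b)` there are
at most `gcd(sg t, sg b, c)` values `l`. Sum over all units `l`; then positivity (words with scalar value
`γ` are at most as many as words with value `1`) gives the average of `N c 1 l 3 A B`.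
-/

set_option autoImplicit false

namespace Pool.Agent.Helper24.AL

open Finset Matrix
open Pool.Agent.Helper56.SW (τ Γ I bx E Rel N Nq)
open Pool.Agent.Helper28.SP (SZ SG red cnt W Sym Pos sP wP lam opX StLAM StSURJ StSYM StNPW StWPN
  StFOLD StLEVEL)

/-! ## A. reduction to words equal to one -/

/-- (POSW) `X = opX s u` is positive semidefinite (StLAM), so `X^j` is; `X^j = ∑ g, cnt s u j g • lam g`
(StLAM) has the entry `cnt s u j (x y⁻¹)` at `(x, y)`. A positive semidefinite matrix satisfies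
`|M x y|² ≤ M x x * M y y` (2 by 2 principal minors; or Cauchy-Schwarz for the form), so
`cnt s u j g ^ 2 ≤ cnt s u j 1 ^ 2`. Hypotheses: StLAM. -/
def StPOSW : Prop :=
  ∀ (G ι : Type) [Group G] [Fintype G] [DecidableEq G] (s : Finset ι) (u : ι → G) (j : ℕ) (g : G),
    Pos s u → cnt s u j g ≤ cnt s u j 1

/-- (WPN1) The same as `StWPN` (`Pool.Agent.Helper28.SP.NPW.thm'`), whose proof gives lists whose word is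
equal to `1` modulo `e`: copy that proof. Hypotheses: none. -/
def StWPN1 : Prop :=
  ∀ (e : ℕ) (a b : ℤ) (k A B : ℕ), 1 ≤ e → 1 ≤ k →
    (W (sP A B) (wP a b) e k 1 : ℝ) ≤
      ((2 * (A : ℝ) + 1) * (2 * B + 1)) ^ k * (N1 e a b k (2 * A) (2 * B) : ℝ)

/-- (POS) By StNPW (with `sc` from StSURJ, as in `Pool.Agent.Helper28.SP.MP.scal`), POSW applied to
`u = red c ∘ w` (which is `Pos` by StSYM: apply the identity for `w` to `f ∘ red c`), `W` is `cnt`, and WPN1: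
`N ((A+1)(B+1))^r ≤ ∑_{x ∈ Γ} W(sc x) ≤ (Γ c).card W(1) ≤ 2 τ(c) ((2A+1)(2B+1))^r N1(2A, 2B)`
(`stSqrt`), and `2A+1 ≤ 2(A+1)`. Hypotheses: StPOSW, StWPN1, StNPW, StSYM, StSURJ. -/
def StPOS : Prop :=
  ∀ (c : ℕ) (a b : ℤ) (r A B : ℕ), 1 ≤ c → 1 ≤ r →
    (N c a b r A B : ℝ) ≤ 2 * τ c * 4 ^ r * (N1 c a b r (2 * A) (2 * B) : ℝ)

/-- (EQ) The list of length three is `[(h₃,k₃), (h₂,k₂), (h₁,k₁)]` (the head is the LAST factor), its word is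
`M = U(h₁)L(y₁)U(h₂)L(y₂)U(h₃)L(y₃)`, `y_i = l k_i`. Map it to `t = ![h₁,h₂,h₃]`, `b = ![k₂,k₃,k₁]`
(injective, into the box). If `M ≡ 1` modulo `c` then `U(h₁)L(y₁)U(h₂) ≡ L(-y₃)U(-h₃)L(-y₂)`, whose entries are
`[[1+h₁y₁, h₁+h₂+h₁h₂y₁],[y₁, 1+h₂y₁]] ≡ [[1+h₃y₂, -h₃],[-y₂-y₃-h₃y₂y₃, 1+h₃y₃]]`. So
`h₁y₁ ≡ h₃y₂`, `h₂y₁ ≡ h₃y₃`, `h₁+h₂+h₃+h₁h₂y₁ ≡ 0`, `y₁+y₂+y₃+h₃y₂y₃ ≡ 0`; the cyclic rotation of the word
also gives `h₂y₂ ≡ h₁y₃`. `l` is a unit modulo `c`: the first statement of `Eqs` follows, and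
`sg t + l h₁h₂k₁ ≡ 0`, `sg b + l h₃k₂k₃ ≡ 0` (i.e. `{i,j} = {0,1}`, `k = 2`); the other index triples
follow from the first statement (`t i * t j * b k ≡ t i * t k * b j` since `t j b k ≡ t k b j`).
Hypotheses: none. -/
def StEQ : Prop :=
  ∀ (c : ℕ) (l : ℤ) (A B : ℕ), 1 ≤ c → IsCoprime l c → N1 c 1 l 3 A B ≤ Q6 c l A B

/-! ## B. the weight -/

/-- (LAM) Let `l ∈ Us c` with `Eqs c l t b` and put `g = gcd(sg t, sg b, c)`, `P = t 0 * t 1 * b 2`,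
`Q = t 2 * b 0 * b 1`. As `c ∣ sg t + l P`, `c ∣ sg b + l Q` and `l` is prime to `c`,
`gcd(P, Q, c) = g`. If `l'` is a second element then `c ∣ (l - l') P`, `c ∣ (l - l') Q`, so
`c ∣ (l - l') g` (Bezout: `g` is a combination of `P, Q, c`), i.e. `c/g ∣ l - l'`; there are at most `g`
such `l'` in `range c`. The other statements: if `sg t = 0` then `c ∣ l (t i * t j * b k)` and `l` is prime
to `c`. Hypotheses: none. -/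
def StLAM6 : Prop :=
  ∀ (c : ℕ) (t b : Fin 3 → ℤ), 1 ≤ c → 0 < Lam c t b →
    (Lam c t b ≤ Int.gcd (Int.gcd (sg t) (sg b)) c) ∧
    (∀ i j, (c : ℤ) ∣ t i * b j - t j * b i) ∧
    (∀ i, (c : ℤ) ∣ t i * sg b - sg t * b i) ∧
    (sg t = 0 → ∀ i j k, i ≠ j → j ≠ k → i ≠ k → (c : ℤ) ∣ t i * t j * b k) ∧
    (sg b = 0 → ∀ i j k, i ≠ j → j ≠ k → i ≠ k → (c : ℤ) ∣ t k * b i * b j)

/-! ## C. counting lemmas -/

/-- (PAIR) Map a pair to the products `(m', m) = (t₁ b₂, t₂ b₁)`. Both are nonzero, divisible by `F`, of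
absolute value at most `X`; `m' - m` is a nonzero multiple of `c` of absolute value at most `2X`. So there
are at most `(2X/F)(4X/c)` such `(m', m)` (`stMul`: `m` is a nonzero multiple of `F` in `[-X, X]`,
`m' - m` a nonzero multiple of `c` in `[-2X, 2X]`), and every `(m', m)` comes from at most
`(2D)(2D)` pairs: `t₁` and `t₂` are divisors of `m'` and `m` (`mFac_card`, or `stFac`), and determine
`b₂`, `b₁`. Hypotheses: none. -/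
def StPAIR : Prop :=
  ∀ (c A1 B1 A2 B2 F X : ℕ) (D : ℝ), 1 ≤ c → 1 ≤ F → A1 * B2 ≤ X → A2 * B1 ≤ X →
    (∀ j : ℕ, 1 ≤ j → j ≤ X → τ j ≤ D) →
    ((PR c A1 B1 A2 B2 F).card : ℝ) ≤ 32 * D ^ 2 * (X : ℝ) ^ 2 / (F * c)

/-- (MX) `m² ≤ ∑_{1 ≤ j ≤ m} 2 j` and `m³ ≤ ∑_{1 ≤ j ≤ m} 3 j²`. Exchange the sums: `j ≤ mx A B w` means
`|w₁| ≤ A/j`, `|w₂| ≤ B/j`, so there are at most `(2A/j)(2B/j)` such `w ∈ Bz A B`, and `j ≤ A`. So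
`∑ mx² ≤ ∑_{j ≤ A} 2j · 4AB/j² ≤ 8AB (1 + log A)` and `∑ mx³ ≤ ∑_{j ≤ A} 3j² · 4AB/j² = 12 A² B`
(`harmonic_le_one_add_log`). Hypotheses: none. -/
def StMX : Prop :=
  ∀ A B : ℕ, 1 ≤ A → 1 ≤ B →
    (∑ w ∈ Bz A B, (mx A B w : ℝ) ^ 2 ≤ 8 * A * B * (1 + Real.log A)) ∧
    (∑ w ∈ Bz A B, (mx A B w : ℝ) ^ 3 ≤ 12 * (A : ℝ) ^ 2 * B)

/-- (Z0) Pairs with `c ∣ x y`: those with `y = 0` are `2A+1`, those with `x = 0` are `2B+1`; the others have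
`x y` a nonzero multiple of `c` of absolute value at most `A B` (`2AB/c` values, `stMul`), and each value has
at most `2D` factorisations (`stFac`). Hypotheses: none. -/
def StZ0 : Prop :=
  ∀ (c A B : ℕ) (D : ℝ), 1 ≤ c → (∀ j : ℕ, 1 ≤ j → j ≤ A * B → τ j ≤ D) →
    ((((I A ×ˢ I B).filter fun p => (c : ℤ) ∣ p.1 * p.2).card : ℕ) : ℝ) ≤
      (2 * A + 1) + (2 * B + 1) + 4 * D * A * B / c

/-- (G1) Let `δ = gcd(t, b)`, `κ = gcd(δ, c)`, `m = mx A B (t, b) ≥ 1`. For `(x, y)` in the set the number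
`n = t y - x b` is a multiple of `δ` and of `c`, hence of `L = δ c/κ` (the least common multiple), and
`|n| ≤ 2AB`. The nonzero number `t w₂ - w₁ b` is also a multiple of `L`, of absolute value at most `6AB`;
so `L ≤ 6AB`, and the number of values `n` is at most `4AB/L + 1 ≤ 10AB/L = 10 AB κ/(δ c)` (`stAP`). For fixed `n`
the solutions `(x, y)` differ by multiples `s (t/δ, b/δ)`, `s ∈ ℤ`, with `|s| |t| ≤ 2Aδ`, `|s| |b| ≤ 2Bδ`;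
`A < (m_A + 1)|t|` where `m_A = A/|t|` (floor), so `|s| < 2δ(m_A+1) ≤ 4δ m_A`, the same for `B`: `|s| < 4δm`.
The values `s` relative to one solution lie in an interval of length less than `4δm` (differences are bounded by the same
inequality), so there are at most `4δm + 1 ≤ 5δm` solutions. Total `50 AB κ m/c`. Hypotheses: none. -/
def StG1 : Prop :=
  ∀ (c A B : ℕ) (t b w1 w2 : ℤ), 1 ≤ c → t ≠ 0 → b ≠ 0 → |t| ≤ A → |b| ≤ B →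
    |w1| ≤ 3 * A → |w2| ≤ 3 * B → (c : ℤ) ∣ t * w2 - w1 * b → t * w2 ≠ w1 * b →
    ((((I A ×ˢ I B).filter fun p => (c : ℤ) ∣ t * p.2 - p.1 * b).card : ℕ) : ℝ) ≤
      50 * A * B * (Int.gcd (Int.gcd t b) c : ℝ) * mx A B (t, b) / c

/-! ## D. the six cases -/

/-- (O) Some coordinate is zero. Let `Lam c t b > 0` and `l` one of the parameters (`Lam c t b ≤ c`).
Case `t k = 0`, `{i, j, k} = {0,1,2}`: `c ∣ sg t + l (t i * t k * b j) = sg t = t i + t j`;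
`c ∣ sg b + l (t k * b i * b j) = sg b`; `c ∣ t i * b k - t k * b i = t i * b k`. So `(t i, b k)` is one of the
pairs of Z0, `b i` is arbitrary (`2B+1` values), `t j` and `b j` are determined modulo `c` (`2A/c+1` and
`2B/c+1` values, `stAP`). Case `b k = 0`: `c ∣ sg b + l (t i * b j * b k) = sg b` (index pattern of the third
equation with `b k` as a factor), `c ∣ sg t + l (t i * t j * b k) = sg t`, `c ∣ t k * b i - t i * b k = t k * b i`: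
`(t k, b i)` is a pair of Z0, `t i` arbitrary, `t j`, `b j` determined modulo `c`. Sum over the three `k` (choose
some `i, j` for each). Hypotheses: StZ0. -/
def StO : Prop :=
  ∀ (c A B : ℕ) (D : ℝ), 1 ≤ c → (∀ j : ℕ, 1 ≤ j → j ≤ A * B → τ j ≤ D) →
    (WT c A B (fun t b => ¬ Nz t b) : ℝ) ≤
      3 * c * ((2 * A + 1) + (2 * B + 1) + 4 * D * A * B / c) * (2 * A / c + 1) * (2 * B / c + 1) *
        ((2 * A + 1) + (2 * B + 1))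

/-- (C) Collinear over the integers, no zero coordinate. Let `δ = gcd(t 0, b 0) > 0`,
`w = (t 0/δ, b 0/δ)`, with coprime coordinates. From `t i * w₂ = w₁ * b i` there are integers `M i ≠ 0` with
`t i = M i w₁`, `b i = M i w₂`; `|M i| ≤ m = mx A B w`. So `(t, b) ↦ (w, M)` is injective into the
`w ∈ Bz A B`, `M ∈ (I m \ 0)³`. Weight: if `l ∈ Us c`, `Eqs c l t b` then with `S = M 0 + M 1 + M 2`,
`f = S + l M 0 M 1 M 2 w₁ w₂` we have `c ∣ w₁ f` and `c ∣ w₂ f`, so `c ∣ f`. As `l` is prime to `c`,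
`gcd(M 0 M 1 M 2 w₁ w₂, c) = gcd(S, c) = g`, and two parameters satisfy `c/g ∣ l - l'`: `Lam ≤ gcd(S, c)`.
For fixed `w`, `M 0`, `M 1` the sum of `gcd(S, c)` over `M 2` is at most `c` (`S = 0`) plus
`∑_{0 < |s| ≤ 3m} gcd(s, c) ≤ 6 m τ(c)` (`∑_{δ ∣ c} δ #{0 < |s| ≤ 3m : δ ∣ s}`, see `StSUM` in
`Pool.Agent.Helper28.SP`, proved there). Total `∑_w (2m)² (c + 6 m τ(c))`, MX. Hypotheses: StMX. -/
def StC : Prop :=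
  ∀ (c A B : ℕ), 1 ≤ c → 1 ≤ A → 1 ≤ B →
    (WT c A B (fun t b => Nz t b ∧ Col t b) : ℝ) ≤
      32 * c * A * B * (1 + Real.log A) + 288 * τ c * (A : ℝ) ^ 2 * B

/-- (Z) Both sums zero, not collinear. All three determinants `t i b j - t j b i` are equal up to sign
(the sums vanish), so all are nonzero. `Lam ≤ c`. Let `E = gcd(t 0 * b 1, c)`, `E' = gcd(t 1 * b 2, c)`. By LAM
`c ∣ t 0 * t 1 * b 2`, so `c ∣ gcd(t 0, c) E'` and `gcd(t 0, c) ≤ E`: `c ≤ E E'`, so `c ≤ E²` or `c ≤ E'²`. In the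
first case `((t 0, b 0), (t 1, b 1)) ∈ PR c A B A B E` (`E` divides `t 1 * b 0` too, as `c ∣ t 0 * b 1 - t 1 * b 0`)
determines `(t, b)`; in the second case `((t 1, b 1), (t 2, b 2)) ∈ PR c A B A B E'`. So the number of `(t, b)` is at
most `2 ∑_{E ∣ c, c ≤ E²} 32 D² (AB)²/(E c) ≤ 64 D² τ(c) (AB)²/(c √c)`. Hypotheses: StPAIR, StLAM6. -/
def StZ : Prop :=
  ∀ (c A B : ℕ) (D : ℝ), 1 ≤ c → (∀ j : ℕ, 1 ≤ j → j ≤ A * B → τ j ≤ D) →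
    (WT c A B (fun t b => Nz t b ∧ ¬ Col t b ∧ sg t = 0 ∧ sg b = 0) : ℝ) ≤
      64 * D ^ 2 * τ c * ((A : ℝ) * B) ^ 2 / Real.sqrt c

/-- (B) `sg t = 0`, `s = sg b ≠ 0`, not collinear. Let `Lam > 0`; `g = gcd(s, c)`, `Lam ≤ g` (LAM;
`Int.gcd 0 s = |s|`). LAM: `c ∣ t i * s`, so `c/g ∣ t i` for all `i`, hence `c/g` divides
`E_ij = gcd(t i * b j, c)`. LAM: `c ∣ t i * t j * b k`. For different `i, j, k`:
`c ∣ t i * (t j * b k)`, so `c ≤ gcd(t i, c) E_jk ≤ E_ij E_jk` (`E_jk = E_kj`, because `c ∣ t j b k - t k b j`). At least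
two of the three determinants are nonzero (if `u_i ∥ u_k` and `u_j ∥ u_k` then `u_i ∥ u_j`, all coordinates being
nonzero), say those of `{i,j}` and `{j,k}`; so there is a pair `{i, j}` with nonzero determinant and `c ≤ E_ij²`.
`(t, b)` is determined by `((t i, b i), (t j, b j)) ∈ PR c A B A B E_ij` and `s`, and `s` is a nonzero multiple of `g`
in `[-3B, 3B]`: `6B/g` values; so `g ≤ 3B` and `c/(3B) ≤ c/g ≤ E_ij`. For each of the three pairs `{i, j}`, each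
`g ∣ c`, each `E ∣ c` with `c ≤ E²`, `c/(3B) ≤ E`: `g (6B/g) 32 D² (AB)²/(E c)`. Hypotheses: StPAIR, StLAM6. -/
def StB : Prop :=
  ∀ (c A B : ℕ) (D : ℝ), 1 ≤ c → 1 ≤ B → (∀ j : ℕ, 1 ≤ j → j ≤ A * B → τ j ≤ D) →
    (WT c A B (fun t b => Nz t b ∧ ¬ Col t b ∧ sg t = 0 ∧ sg b ≠ 0) : ℝ) ≤
      576 * D ^ 2 * τ c ^ 2 * (B * ((A : ℝ) * B) ^ 2 / (c * max (Real.sqrt c) (c / (3 * B))))

/-- (T) The same with the roles of `t` and `b` exchanged: `(t, b) ↦ (b, t)` maps `Bx A B` onto `Bx B A` and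
`Lam c b t = Lam c t b` (`Eqs c l b t ↔ Eqs c l t b`: the first statement changes sign, the second and third
are exchanged, up to renaming indices). Hypotheses: StB. -/
def StT : Prop :=
  ∀ (c A B : ℕ) (D : ℝ), 1 ≤ c → 1 ≤ A → (∀ j : ℕ, 1 ≤ j → j ≤ A * B → τ j ≤ D) →
    (WT c A B (fun t b => Nz t b ∧ ¬ Col t b ∧ sg t ≠ 0 ∧ sg b = 0) : ℝ) ≤
      576 * D ^ 2 * τ c ^ 2 * (A * ((A : ℝ) * B) ^ 2 / (c * max (Real.sqrt c) (c / (3 * A))))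

/-- (G2) For `κ, g ∣ c` and `m ≥ 1` the pairs `(u, w)`, `u = (u₁, u₂)` in the box with `mx A B u = m` and
`gcd(u₁, u₂, c) = κ`, `w` in the box `(3A, 3B)` with `gcd(w₁, w₂, c) = g`, not collinear, `c` divides the
determinant. They lie in `PR c (A/m) (B/m) (3A) (3B) (κ g)` (`m |u₁| ≤ A`; `κ ∣ u₁, u₂`, `g ∣ w₁, w₂`), and PAIR with
`X = 3AB/m` (floor) gives `32 D² (3AB/m)²/(κ g c)`. Hypotheses: StPAIR. -/
def StG2 : Prop :=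
  ∀ (c A B κ g m : ℕ) (D : ℝ), 1 ≤ c → κ ∣ c → g ∣ c → 1 ≤ m →
    (∀ j : ℕ, 1 ≤ j → j ≤ 3 * A * B → τ j ≤ D) →
    (((Bz A B ×ˢ Bz (3 * A) (3 * B)).filter fun p =>
      mx A B p.1 = m ∧ Int.gcd (Int.gcd p.1.1 p.1.2) c = κ ∧
      Int.gcd (Int.gcd p.2.1 p.2.2) c = g ∧
      (c : ℤ) ∣ p.1.1 * p.2.2 - p.2.1 * p.1.2 ∧ p.1.1 * p.2.2 ≠ p.2.1 * p.1.2).card : ℝ) ≤
      288 * D ^ 2 * ((A : ℝ) * B) ^ 2 / ((m : ℝ) ^ 2 * κ * g * c)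

/-- (G) Both sums nonzero, not collinear. Let `Lam > 0`, `w = (sg t, sg b)`, `g = gcd(w₁, w₂, c)`; `Lam ≤ g`
(LAM). `c` divides all `t i * w₂ - w₁ * b i` (LAM); one of them is nonzero: otherwise all `u_i` are
multiples of the same rational vector (`w₁, w₂ ≠ 0`) and `Col t b` holds. Fix such an `i` (three choices) and some
`j ≠ i`; `(t, b)` is determined by `(u_i, w, u_j)`. For given `(u_i, w)` with `κ = gcd(t i, b i, c)`,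
`m = mx A B u_i` (`1 ≤ m ≤ A`) there are at most `50 AB κ m/c` vectors `u_j` (G1, as `c ∣ t i * b j - t j * b i`).
By G2 the sum for fixed `i, κ, g, m` is at most
`g · 288 D² (AB)²/(m² κ g c) · 50 AB κ m/c = 14400 D² (AB)³/(m c²)`; sum over `m ≤ A` (`1 + log A`), `κ, g ∣ c`, `i`.
Hypotheses: StG1, StG2, StLAM6. -/
def StG : Prop :=
  ∀ (c A B : ℕ) (D : ℝ), 1 ≤ c → 1 ≤ A → 1 ≤ B → (∀ j : ℕ, 1 ≤ j → j ≤ 3 * A * B → τ j ≤ D) →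
    (WT c A B (fun t b => Nz t b ∧ ¬ Col t b ∧ sg t ≠ 0 ∧ sg b ≠ 0) : ℝ) ≤
      43200 * D ^ 2 * τ c ^ 2 * (1 + Real.log A) * ((A : ℝ) * B) ^ 3 / (c : ℝ) ^ 2

/-! ## E. the average -/

/-- (INEQ) Write `X = A B`. (i) If `A² ≤ c√c` then `X²/√c ≤ c B²`; otherwise `X ≥ A² > c√c` and
`X²/√c ≤ X³/c²`. (ii) If `X ≤ c√c`: `B X²/(c · c/(3B)) = 3B²X²/c² ≤ 3cB²`; otherwise `B √c ≤ K c √c ≤ K X` and
`B X²/(c√c) ≤ K X³/c²`. (iii) The same with `A` in place of `B` (`A ≤ B`). (iv) `A²B ≤ K c B²`.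
Hypotheses: none. -/
def StINEQ : Prop :=
  ∀ (c A B : ℕ) (K : ℝ), 1 ≤ c → 1 ≤ A → A ≤ B → 1 ≤ K → (B : ℝ) ≤ K * c →
    ((A : ℝ) * B) ^ 2 / Real.sqrt c ≤ c * (B : ℝ) ^ 2 + ((A : ℝ) * B) ^ 3 / (c : ℝ) ^ 2 ∧
    B * ((A : ℝ) * B) ^ 2 / (c * max (Real.sqrt c) (c / (3 * B))) ≤
      3 * K * (c * (B : ℝ) ^ 2 + ((A : ℝ) * B) ^ 3 / (c : ℝ) ^ 2) ∧
    A * ((A : ℝ) * B) ^ 2 / (c * max (Real.sqrt c) (c / (3 * A))) ≤
      3 * K * (c * (B : ℝ) ^ 2 + ((A : ℝ) * B) ^ 3 / (c : ℝ) ^ 2) ∧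
    (A : ℝ) ^ 2 * B ≤ K * (c * (B : ℝ) ^ 2)

/-- (SPLIT) `∑_{l ∈ Us c} Q6 c l A B = ∑_{(t,b) ∈ Bx A B} Lam c t b` (exchange of sums), and the box is the
disjoint union of the six cases O, C, Z, B, T, G. Hypotheses: none. -/
def StSPLIT : Prop :=
  ∀ (c A B : ℕ), ∑ l ∈ Us c, Q6 c l A B =
    WT c A B (fun t b => ¬ Nz t b) + WT c A B (fun t b => Nz t b ∧ Col t b) +
    WT c A B (fun t b => Nz t b ∧ ¬ Col t b ∧ sg t = 0 ∧ sg b = 0) +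
    WT c A B (fun t b => Nz t b ∧ ¬ Col t b ∧ sg t = 0 ∧ sg b ≠ 0) +
    WT c A B (fun t b => Nz t b ∧ ¬ Col t b ∧ sg t ≠ 0 ∧ sg b = 0) +
    WT c A B (fun t b => Nz t b ∧ ¬ Col t b ∧ sg t ≠ 0 ∧ sg b ≠ 0)

/-- (S6) Let `D` be the maximum of the `τ j`, `j ≤ 3AB` (`3AB ≤ 3K²c²`): `D ≤ C₁ c^ε'`, `τ c ≤ C₁ c^ε'`
(`fn_div`), `1 + log A ≤ C₁ c^ε'` (`A ≤ Kc`). O: `(2A+1)+(2B+1) ≤ 6B`, `4DAB/c ≤ 4DKB`, `2A/c+1 ≤ 3K`: at most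
`3c · 10DKB · 9K² · 6B = 1620 D K³ c B²`. C: by INEQ (iv) and `AB ≤ B²`. Z, B, T by INEQ. Sum up. Hypotheses: StO, StC, StZ,
StB, StT, StG, StINEQ, StSPLIT. -/
def StS6 : Prop :=
  ∀ (K ε : ℝ), 1 ≤ K → 0 < ε → ∃ C : ℝ, 0 < C ∧ ∀ (c A B : ℕ), 1 ≤ c → 1 ≤ A → A ≤ B →
    (B : ℝ) ≤ K * c →
    (∑ l ∈ Us c, (Q6 c l A B : ℝ)) ≤ C * (c : ℝ) ^ ε * (c * (B : ℝ) ^ 2 + ((A : ℝ) * B) ^ 3 / (c : ℝ) ^ 2)

/-- (AVG) POS with `r = 3`, EQ, and S6 for `(2A, 2B)` (`K → 2K`); `τ c ≤ C c^ε'`. Hypotheses: StPOS, StEQ,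
StS6. -/
def StAVG : Prop :=
  ∀ (K ε : ℝ), 1 ≤ K → 0 < ε → ∃ C : ℝ, 0 < C ∧ ∀ (c A B : ℕ), 1 ≤ c → 1 ≤ A → A ≤ B →
    (B : ℝ) ≤ K * c →
    (∑ l ∈ Us c, (N c 1 l 3 A B : ℝ)) ≤
      C * (c : ℝ) ^ (1 + ε) * ((B : ℝ) ^ 2 + ((A : ℝ) * B) ^ 3 / (c : ℝ) ^ 3)

/-! ## F. exceptional sets and longer words -/

/-- (BAD) For `l ∈ Bad C ε e` take `A ≤ B ≤ e` as in the definition, `2^(i-1) < A ≤ 2^i`, `2^(j-1) < B ≤ 2^j` (`i = clog₂ A`,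
`i ≤ j`, `2^i ≤ 2A`, `2^j ≤ 2B ≤ 2e`). `N` is monotone in `A, B`, `B² ≥ 4^j/4`, `(AB)³ ≥ 8^(i+j)/64`, so
`N e 1 l 3 (2^i) (2^j) > (C/64) e^ε (4^j + 8^(i+j)/e³)`. By AVG (`K = 2`, `ε'`) for fixed `(i, j)` the number of such
`l` is at most `64 C₂ e^(1+ε')/(C e^ε)`. The number of `(i, j)` is at most `(log₂ e + 2)² ≤ C₄ e^ε'`, and
`e ≤ φ(e) τ(e) ≤ C₃ e^ε' φ(e)` (`Pool.Agent.Helper28.SP.LEVEL.le_totient_mul`). With `3ε' = ε - δ` and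
`C ≥ 1 + 64 C₂ C₃ C₄` the claim follows. Hypotheses: StAVG. -/
def StBAD : Prop :=
  ∀ (δ ε : ℝ), 0 < δ → δ < ε → ∃ C : ℝ, 0 < C ∧ ∀ e : ℕ, 1 ≤ e →
    ((Bad C ε e).card : ℝ) ≤ C * (e : ℝ) ^ (-δ) * (Nat.totient e : ℝ)

/-- (CNT) If `Gd C ε c l` fails (`l ∈ Us c`) then for some `e ∣ c`, `c ≤ e²`, the residue `l mod e` lies in `Bad C ε e`
(`N e 1 l 3 A B` depends only on `l` modulo `e`: the entries of `E 1 l list` are polynomials in `l`; or use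
`M_Deg_rel_iff`). Every `l' ∈ Us e` is the residue of exactly `φ(c)/φ(e)` elements of `Us c`
(`ZMod.unitsMap_surjective`, fibres of a surjective homomorphism of finite groups, `ZMod.card_units_eq_totient`). So the number is
at most `∑_{e ∣ c, c ≤ e²} C e^(-δ) φ(e) φ(c)/φ(e) ≤ τ(c) C c^(-δ/2) φ(c)`. Hypotheses: none. -/
def StCNT : Prop :=
  ∀ (δ ε C : ℝ), 0 < δ → 0 < C →
    (∀ e : ℕ, 1 ≤ e → ((Bad C ε e).card : ℝ) ≤ C * (e : ℝ) ^ (-δ) * (Nat.totient e : ℝ)) →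
    ∀ c : ℕ, 1 ≤ c → ∃ Y : Finset ℕ, Y ⊆ Us c ∧ (∀ l ∈ Us c, l ∉ Y → Gd C ε c l) ∧
      (Y.card : ℝ) ≤ τ c * C * (c : ℝ) ^ (-(δ / 2)) * (Nat.totient c : ℝ)

/-- (LEV) The hypothesis of StLEVEL for `k = 3` and the positive family. Put `A' = min(2A, e)`,
`B' = min(2B, e)`. StWPN and StFOLD: `W_P(e; 3, 1) ≤ ((2A+1)(2B+1))³ N(e; 2A, 2B)`,
`N(e; 2A, 2B) ≤ (6A/A')³ (6B/B')³ N(e; A', B')`. Claim `N(e; A', B') ≤ C₁ c^ε (B'² + (A'B')³/e³)`: if `c ≤ e²`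
this is `Gd` (`e^ε ≤ c^ε`). If `e² < c ≤ B²` then `e < B`, `B' = e`, and `fn_fin` (`r = 3`, `K = 1`) gives
`C e^ε (B'² + A'² + A'³B'/e) ≤ 2C e^ε (e² + A'³)`, `A'³ = (A'B')³/e³`. With
`mu = ((2A+1)(2B+1))²`: `W_P e² ≤ C₂ c^ε mu³ (e²/(A'³B') + 1/e)` (`AB ≤ (2A+1)(2B+1)`), and
`e²/(A'³B') ≤ 1/e + K c²/(A³B)`: `e ≤ 2A`: `1/e²`; `2A < e ≤ 2B`: `e/(8A³)` and `e B ≤ K c²`; `e > 2B`:
`e²/(16A³B)`. Hypotheses: StWPN, StFOLD. -/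
def StLEV : Prop :=
  ∀ (K C0 ε : ℝ), 1 ≤ K → 0 < C0 → 0 < ε → ∃ C : ℝ, 0 < C ∧ ∀ (c : ℕ) (l : ℤ) (A B : ℕ), 1 ≤ c →
    IsCoprime l c → 1 ≤ A → A ≤ B → (B : ℝ) ≤ K * c → c ≤ B ^ 2 → Gd C0 ε c l →
    ∀ e ∈ c.divisors, (W (sP A B) (wP 1 l) e 3 1 : ℝ) * (e : ℝ) ^ 2 ≤
      C * (c : ℝ) ^ ε * (((2 * (A : ℝ) + 1) * (2 * B + 1)) ^ 2) ^ 3 *
        (1 / e + K * (c : ℝ) ^ 2 / ((A : ℝ) ^ 3 * B))

/-- (TH) Case `c ≤ B²`: StLEVEL (`k = 3`, `j = r`, family `sP`, `C1 = C c^ε`, `t = K c²/(A³B)`), then StNPW (with `sc`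
from StSURJ, `Pool.Agent.Helper28.SP.MP.scal`), `(Γ c).card ≤ 2τ`, `mu/((A+1)(B+1)) ≤ 36 A B`, `fn_div`:
`N ≤ C c^(ε r/3 + ε₁) (AB)^r/c³ (1 + c (K c²/(A³B))^(r/3))`, and
`(AB)^r c⁻² (c²/(A³B))^(r/3) = c^((2r-6)/3) B^(2r/3)`. Case `B² < c`: `fn_fin` gives
`N ≤ C c^ε₁ (B^(r-1) + A^(r-1)B^(r-3) + A^r B^(r-2)/c) ≤ 3C c^ε₁ B^(2r-4)` and
`B^(2r-4) = B^(2r/3) (B²)^((2r-6)/3) ≤ c^((2r-6)/3) B^(2r/3)`.
Hypotheses: StLEV, StLEVEL, StSYM, StNPW, StSURJ. -/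
def StTH : Prop :=
  ∀ (r : ℕ) (K C0 ε ε1 : ℝ), 3 ≤ r → 1 ≤ K → 0 < C0 → 0 < ε → 0 < ε1 → ∃ C : ℝ, 0 < C ∧
    ∀ (c : ℕ) (l : ℤ) (A B : ℕ), 1 ≤ c → IsCoprime l c → 1 ≤ A → A ≤ B → (B : ℝ) ≤ K * c →
      Gd C0 ε c l →
      (N c 1 l r A B : ℝ) ≤ C * (c : ℝ) ^ (ε * r / 3 + ε1) *
        (((A : ℝ) * B) ^ r / (c : ℝ) ^ 3 + (c : ℝ) ^ ((2 * (r : ℝ) - 6) / 3) * (B : ℝ) ^ (2 * (r : ℝ) / 3))

/-- (TR) `Nq` in the integer model with parameter `l ≡ - a₁ a₂`. The proof of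
`Pool.Agent.Helper56.SW.stTr` gives `Nq (2 r) c a₁ a₂ H₁ H₂ = N c a b r ⌊H₁⌋₊ ⌊H₂⌋₊` with
`a = (a₁).val`, `b = (-a₂).val` (copy it, or use its parts). Conjugation with `diag(a, 1)`: over `ℤ`,
`E a b list` and `E' = E 1 (a b) list` satisfy `E 0 0 = E' 0 0`, `E 0 1 = a E' 0 1`, `a E 1 0 = E' 1 0`,
`E 1 1 = E' 1 1` (induction on the list), so `Rel c a b γ list ↔ Rel c 1 (a b) γ list` for `a` prime to `c`;
and `Rel c 1 l` depends only on `l` modulo `c`. Hypotheses: none. -/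
def StTR : Prop :=
  ∀ (r c : ℕ) (a₁ a₂ : (ZMod c)ˣ) (H₁ H₂ : ℝ), 1 ≤ c → 1 ≤ H₁ → H₁ ≤ H₂ →
    Nq (2 * r) c a₁ a₂ H₁ H₂ = N c 1 (((-(a₁ * a₂) : (ZMod c)ˣ) : ZMod c).val : ℤ) r ⌊H₁⌋₊ ⌊H₂⌋₊

/-- (FIN) `ε₀ = 3ε/(2r)`, `δ = 5ε/(4r) < ε₀`. BAD gives `C₀`, CNT (for this `C₀`) the sets `Y ⊆ Us c` with
`|Y| ≤ τ(c) C₀ c^(-5ε/(8r)) φ(c) ≤ C c^(-ε/(2r)) φ(c)` (`fn_div` with `ε/(8r)`). Let the exceptional set be the set of all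
units `y` with `(-y).val ∈ Y` (same cardinality at most). TR and TH with `ε = ε₀`, `ε₁ = ε/2`
(`ε₀ r/3 + ε/2 = ε`), `A = ⌊H₁⌋`, `B = ⌊H₂⌋`. Hypotheses: StBAD, StCNT, StTH, StTR. -/
def StFIN : Prop :=
  ∀ (r : ℕ) (K ε : ℝ), 3 ≤ r → 1 ≤ K → 0 < ε → ∃ C : ℝ, 0 < C ∧ ∀ c : ℕ, 1 ≤ c →
    ∃ X : Finset (ZMod c)ˣ, (X.card : ℝ) ≤ C * (c : ℝ) ^ (-(ε / (2 * r))) * (Nat.totient c : ℝ) ∧
      ∀ a₁ a₂ : (ZMod c)ˣ, a₁ * a₂ ∉ X → ∀ H₁ H₂ : ℝ, 1 ≤ H₁ → H₁ ≤ H₂ → H₂ ≤ K * c →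
        (Nq (2 * r) c a₁ a₂ H₁ H₂ : ℝ) ≤ C * (c : ℝ) ^ ε *
          ((H₁ * H₂) ^ r / (c : ℝ) ^ 3 + (c : ℝ) ^ ((2 * (r : ℝ) - 6) / 3) * H₂ ^ (2 * (r : ℝ) / 3))

/-- (END) `r = 3`: `c^0 H₂^2`. If `c^(2r+3) ≤ (H₁³H₂)^r` then `c^((2r-6)/3) H₂^(2r/3) ≤ (H₁H₂)^r/c³` (cube:
`c^(2r-6) H₂^(2r) ≤ (H₁H₂)^(3r)/c⁹`). Hypotheses: StFIN. -/
def StEND : Prop :=
  ∀ (r : ℕ) (K ε : ℝ), 3 ≤ r → 1 ≤ K → 0 < ε → ∃ C : ℝ, 0 < C ∧ ∀ c : ℕ, 1 ≤ c →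
    ∃ X : Finset (ZMod c)ˣ, (X.card : ℝ) ≤ C * (c : ℝ) ^ (-(ε / (2 * r))) * (Nat.totient c : ℝ) ∧
      ∀ a₁ a₂ : (ZMod c)ˣ, a₁ * a₂ ∉ X → ∀ H₁ H₂ : ℝ, 1 ≤ H₁ → H₁ ≤ H₂ → H₂ ≤ K * c →
        (Nq (2 * r) c a₁ a₂ H₁ H₂ : ℝ) ≤ C * (c : ℝ) ^ ε *
          ((H₁ * H₂) ^ r / (c : ℝ) ^ 3 + (c : ℝ) ^ ((2 * (r : ℝ) - 6) / 3) * H₂ ^ (2 * (r : ℝ) / 3)) ∧
        (r = 3 ∨ (c : ℝ) ^ (2 * r + 3) ≤ (H₁ ^ 3 * H₂) ^ r →
          (Nq (2 * r) c a₁ a₂ H₁ H₂ : ℝ) ≤ 2 * C * (c : ℝ) ^ ε *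
            (H₂ ^ (r - 1) + (H₁ * H₂) ^ r / (c : ℝ) ^ 3))

end Pool.Agent.Helper24.AL
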